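import Pool.Agent.U62.JST.Main

set_option autoImplicit false
set_option linter.unusedSectionVars false

/-!
# Joint equidistribution is equivalent to the absence of poles at `s = 1`
-/

namespace Pool.Agent.U62.JST

open Complex Filter Topology ComplexConjugate NumberField IsDedekindDomain MeasureTheory
  Pool.Agent.W540.BE Pool.Agent.TH553.RS Pool.Agent.TH553.ST Pool.Agent.H341R2
open scoped Kronecker Matrix

variable {K : Type} [Field K] [NumberField K]
variable {G : Type} [Group G] [TopologicalSpace G] [IsTopologicalGroup G] [CompactSpace G]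
  [MeasurableSpace G] [BorelSpace G] {μ : Measure G} [IsProbabilityMeasure μ] [μ.IsHaarMeasure]
  {n : ℕ} {π : G →* Matrix.unitaryGroup (Fin n) ℂ}
variable {G' : Type} [Group G'] [TopologicalSpace G'] [IsTopologicalGroup G'] [CompactSpace G']
  [MeasurableSpace G'] [BorelSpace G'] {μ' : Measure G'} [IsProbabilityMeasure μ']
  [μ'.IsHaarMeasure] {n' : ℕ} {π' : G' →* Matrix.unitaryGroup (Fin n') ℂ}
  {x : HeightOneSpectrum (𝓞 K) → G} {x' : HeightOneSpectrum (𝓞 K) → G'}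

/-- a meromorphic continuation to a neighbourhood of `1 + iτ` -/
def Con (π : G →* Matrix.unitaryGroup (Fin n) ℂ) (x : HeightOneSpectrum (𝓞 K) → G)
    (π' : G' →* Matrix.unitaryGroup (Fin n') ℂ) (x' : HeightOneSpectrum (𝓞 K) → G') (τ : ℝ)
    (Λ : ℂ → ℂ) : Prop :=
  MeromorphicAt Λ (1 + τ * I) ∧
    ∀ᶠ s in 𝓝 ((1 : ℂ) + τ * I), (1 : ℝ) < s.re → Λ s = LP π x π' x' s

theorem exists_U : ∃ U : Ultrafilter ℝ, (U : Filter ℝ) ≤ 𝓝[>] 0 := Ultrafilter.exists_le _

theorem cor_eq {U : Ultrafilter ℝ} (hU : (U : Filter ℝ) ≤ 𝓝[>] 0) {τ : ℝ} {m : ℤ}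
    (h : Tendsto (sz π x π' x' τ) (𝓝[>] 0) (𝓝 (-(m : ℝ)))) : cor U π x π' x' τ = -(m : ℝ) :=
  tendsto_nhds_unique (cor_lim hU τ) (h.mono_left hU)

/-- **If there are no poles at `s = 1`, there are no zeros and poles on `Re s = 1`.** -/
theorem order_zero (hx : Law x μ) (hx' : Law x' μ')
    (hpole : ∀ (m m' : ℕ) (ρ : G →* Matrix.unitaryGroup (Fin m) ℂ)
      (ρ' : G' →* Matrix.unitaryGroup (Fin m') ℂ), NI ρ → NI ρ' →
      ∃ Λ, Con ρ x ρ' x' 0 Λ ∧ (Same ρ μ ρ' μ' → 0 ≤ meromorphicOrderAt Λ (1 + (0 : ℝ) * I)))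
    (h : NI π) (h' : NI π') (hn : 2 ≤ n) {τ : ℝ} {Λ : ℂ → ℂ} (hΛ : Con π x π' x' τ Λ) :
    meromorphicOrderAt Λ (1 + τ * I) = 0 := by
  obtain ⟨U, hU⟩ := exists_U
  obtain ⟨m, h7, h8⟩ := order_LP hΛ.1 hΛ.2
  have h9 := not_edge (μ := μ) (μ' := μ') hx hx' h.1 h.2.1 h'.1 h'.2.1 hn hU
    (fun k k' ρ ρ' hρ hρ' => by
      obtain ⟨Λ₀, h10, h11⟩ := hpole k k' ρ ρ' hρ hρ'
      obtain ⟨m₀, h12, h13⟩ := order_LP h10.1 h10.2
      rw [cor_eq hU h13]
      by_cases hS : Same ρ μ ρ' μ'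
      · have h14 := h11 hS
        rw [h12] at h14
        have h15 : 0 ≤ m₀ := by exact_mod_cast h14
        have h16 : (0 : ℝ) ≤ m₀ := by exact_mod_cast h15
        linarith
      · have h14 := pair_zero hx hx' hρ.1 hρ.2.1 hρ'.1 hρ'.2.1 hS h13
        rw [h14]
        simp) τ
  rw [cor_eq hU h8, neg_sq] at h9
  have h10 : m ^ 2 < 1 := by exact_mod_cast h9
  have h11 : m = 0 := by
    by_contra h0
    have := Int.one_le_abs h0
    have h12 : (1 : ℤ) ≤ m ^ 2 := by
      rw [← sq_abs]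
      nlinarith
    omega
  rw [h7, h11]
  rfl

/-- the decorrelation -/
theorem avg_zero (hcont : ∀ τ : ℝ, ∃ Λ : ℂ → ℂ, Con π x π' x' τ Λ ∧
      meromorphicOrderAt Λ (1 + τ * I) = 0) :
    Tendsto (mn fun v => chi π (x v) * chi π' (x' v)) atTop (𝓝 0) := by
  obtain ⟨α, h1, h2, h3⟩ := exists_al π x π' x'
  have h4 := taub h1 (L := LP π x π' x') (fun s _ => by
    unfold LP
    exact tprod_congr fun v => by rw [h3]) (fun τ => by
    obtain ⟨Λ, ⟨h5, h6⟩, h7⟩ := hcont τ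
    have h7' : meromorphicOrderAt Λ (1 + τ * I) = ((0 : ℤ) : WithTop ℤ) := h7
    obtain ⟨g, h10, h11, h12⟩ := (meromorphicOrderAt_eq_int_iff h5).1 h7'
    refine ⟨g, h10, h11, ?_⟩
    rw [eventually_nhdsWithin_iff] at h12
    filter_upwards [h12, h6] with s h13 h14 h15
    have hne : s ≠ 1 + τ * I := by
      intro h
      rw [h] at h15
      simp at h15
    have h16 := h13 hne
    rw [zpow_zero, one_smul] at h16
    rw [← h16, h14 h15])
  refine h4.congr fun N => ?_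
  congr 1
  funext v
  exact h2 v

/-- products of characters -/
theorem joint_chi' (hx : Law x μ) (hx' : Law x' μ') (hc : Continuous π) (hs : Schur π)
    (hc' : Continuous π') (hs' : Schur π')
    (hd : (∃ g, π g ≠ 1) → (∃ g, π' g ≠ 1) →
      Tendsto (mn fun v => chi π (x v) * chi π' (x' v)) atTop (𝓝 0)) :
    Tendsto (mn fun v => chi π (x v) * chi π' (x' v)) atTop
      (𝓝 ((∫ g, chi π g ∂μ) * ∫ g, chi π' g ∂μ')) := by
  by_cases h1 : ∃ g, π g ≠ 1
  · by_cases h2 : ∃ g, π' g ≠ 1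
    · rw [int_chi hc hs h1, zero_mul]
      exact hd h1 h2
    · push Not at h2
      have h3 := (law_c hx (cont_chi hc) (fun g h => chi_cls π g h)).const_mul (n' : ℂ)
      have h4 : ∫ g, chi π' g ∂μ' = n' := by
        simp only [chi_triv h2]
        simp
      rw [h4, mul_comm]
      refine h3.congr fun N => ?_
      rw [← mn_mul]
      congr 1
      funext v
      rw [chi_triv h2, mul_comm]
  · push Not at h1
    have h3 := (law_c hx' (cont_chi hc') (fun g h => chi_cls π' g h)).const_mul (n : ℂ)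
    have h4 : ∫ g, chi π g ∂μ = n := by
      simp only [chi_triv h1]
      simp
    rw [h4]
    refine h3.congr fun N => ?_
    rw [← mn_mul]
    congr 1
    funext v
    rw [chi_triv h1]

variable [T2Space G] [T2Space G'] [SecondCountableTopology G] [SecondCountableTopology G']

/-- **Joint equidistribution.** -/
theorem joint' (hx : Law x μ) (hx' : Law x' μ')
    (hd : ∀ (m m' : ℕ) (ρ : G →* Matrix.unitaryGroup (Fin m) ℂ)
      (ρ' : G' →* Matrix.unitaryGroup (Fin m') ℂ), NI ρ → NI ρ' →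
      Tendsto (mn fun v => chi ρ (x v) * chi ρ' (x' v)) atTop (𝓝 0))
    {f : G × G' → ℂ} (hf : Continuous f)
    (hcl : ∀ g g' k k', f (k * g * k⁻¹, k' * g' * k'⁻¹) = f (g, g')) :
    Tendsto (mn fun v => f (x v, x' v)) atTop (𝓝 (∫ p, f p ∂(μ.prod μ'))) := by
  refine mn_unif fun ε hε => ?_
  obtain ⟨k, m, m', ρ, ρ', a, h1, h2, h4⟩ := class_dense2 hf hcl hε
  refine ⟨fun v => ∑ i, a i * (chi (ρ i) (x v) * chi (ρ' i) (x' v)),
    ∑ i, a i * ((∫ g, chi (ρ i) g ∂μ) * ∫ g, chi (ρ' i) g ∂μ'), fun v => h4 _ _, ?_, ?_⟩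
  · have hci : ∀ i, Continuous fun p : G × G' => a i * (chi (ρ i) p.1 * chi (ρ' i) p.2) :=
      fun i => continuous_const.mul (((cont_chi (h1 i).1).comp continuous_fst).mul
        ((cont_chi (h2 i).1).comp continuous_snd))
    have hFc : Continuous fun p : G × G' => ∑ i, a i * (chi (ρ i) p.1 * chi (ρ' i) p.2) :=
      continuous_finsetSum _ fun i _ => hci i
    have hI : ∀ F : G × G' → ℂ, Continuous F → Integrable F (μ.prod μ') := fun F hF =>
      hF.integrable_of_hasCompactSupport (HasCompactSupport.of_compactSpace F)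
    have h5 : ∫ p, (∑ i, a i * (chi (ρ i) p.1 * chi (ρ' i) p.2)) ∂(μ.prod μ') =
        ∑ i, a i * ((∫ g, chi (ρ i) g ∂μ) * ∫ g, chi (ρ' i) g ∂μ') := by
      rw [integral_finsetSum _ fun i _ => hI _ (hci i)]
      refine Finset.sum_congr rfl fun i _ => ?_
      rw [integral_const_mul, integral_prod_mul]
    rw [← h5, ← integral_sub (hI _ hFc) (hI _ hf)]
    refine (norm_integral_le_integral_norm _).trans ?_
    have h6 : ∫ p, ‖(∑ i, a i * (chi (ρ i) p.1 * chi (ρ' i) p.2)) - f p‖ ∂(μ.prod μ') ≤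
        ∫ _, ε ∂(μ.prod μ') := by
      refine integral_mono ((hI _ hFc).sub (hI _ hf)).norm (integrable_const _) fun p => ?_
      simp only
      rw [norm_sub_rev]
      exact h4 p.1 p.2
    simpa using h6
  · have h7 : Tendsto (fun N => ∑ i, a i * mn (fun v => chi (ρ i) (x v) * chi (ρ' i) (x' v)) N)
        atTop (𝓝 (∑ i, a i * ((∫ g, chi (ρ i) g ∂μ) * ∫ g, chi (ρ' i) g ∂μ'))) := by
      refine tendsto_finsetSum _ fun i _ => Tendsto.const_mul _ ?_
      exact joint_chi' hx hx' (h1 i).1 (h1 i).2 (h2 i).1 (h2 i).2 fun q q' =>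
        hd _ _ (ρ i) (ρ' i) ⟨(h1 i).1, (h1 i).2, q⟩ ⟨(h2 i).1, (h2 i).2, q'⟩
    refine h7.congr fun N => ?_
    rw [mn_sum]
    exact Finset.sum_congr rfl fun i _ => (mn_mul _ _ _).symm

/-- the converse -/
theorem order_of_joint
    (hJ : ∀ f : G × G' → ℂ, Continuous f →
      (∀ g g' k k', f (k * g * k⁻¹, k' * g' * k'⁻¹) = f (g, g')) →
      Tendsto (mn fun v => f (x v, x' v)) atTop (𝓝 (∫ p, f p ∂(μ.prod μ'))))
    (h : NI π) (h' : NI π') {τ : ℝ} {Λ : ℂ → ℂ} (hΛ : Con π x π' x' τ Λ) :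
    meromorphicOrderAt Λ (1 + τ * I) = 0 := by
  obtain ⟨U, hU⟩ := exists_U
  obtain ⟨m, h7, h8⟩ := order_LP hΛ.1 hΛ.2
  have h1 := hJ (fun p => chi π p.1 * chi π' p.2)
    (((cont_chi h.1).comp continuous_fst).mul ((cont_chi h'.1).comp continuous_snd))
    (fun g g' k k' => by simp only [chi_cls])
  have h2 : ∫ p : G × G', chi π p.1 * chi π' p.2 ∂(μ.prod μ') = 0 := by
    rw [integral_prod_mul, int_chi h.1 h.2.1 h.2.2, zero_mul]
  rw [h2] at h1
  have h3 := M_height hU (g := fun v => chi π (x v) * chi π' (x' v))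
    (by
      have := (bc_tc (π := π) x 0).mul (bc_tc (π := π') x' 0)
      simp only [tc_zero] at this
      exact this) h1 τ
  have h4 : cor U π x π' x' τ = 0 := by
    rw [← h3]
    unfold cor
    congr 1
    funext v
    rw [tc_zero]
    unfold tc
    rw [mul_assoc]
  rw [cor_eq hU h8] at h4
  have h5 : m = 0 := by
    have : (m : ℝ) = 0 := by linarith
    exact_mod_cast this
  rw [h7, h5]
  rfl

end Pool.Agent.U62.JST
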