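import Pool.Agent.U62.JST.Pos

set_option autoImplicit false
set_option linter.unusedSectionVars false

/-!
# Joint equidistribution: only poles at `s = 1` can be obstructions
-/

namespace Pool.Agent.U62.JST

open Complex Filter Topology ComplexConjugate NumberField IsDedekindDomain MeasureTheory
  Pool.Agent.W540.BE Pool.Agent.TH553.RS Pool.Agent.TH553.ST Pool.Agent.H341R2
open scoped Kronecker Matrix

variable {K : Type} [Field K] [NumberField K]
variable {G : Type} [Group G] [TopologicalSpace G] [IsTopologicalGroup G] [CompactSpace G]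
  [MeasurableSpace G] [BorelSpace G] {μ : Measure G} [IsProbabilityMeasure μ] [μ.IsHaarMeasure]
  {n : ℕ} {π : G →* Matrix.unitaryGroup (Fin n) ℂ}
variable {G' : Type} [Group G'] [TopologicalSpace G'] [IsTopologicalGroup G'] [CompactSpace G']
  [MeasurableSpace G'] [BorelSpace G'] {μ' : Measure G'} [IsProbabilityMeasure μ']
  [μ'.IsHaarMeasure] {n' : ℕ} {π' : G' →* Matrix.unitaryGroup (Fin n') ℂ}
  {x : HeightOneSpectrum (𝓞 K) → G} {x' : HeightOneSpectrum (𝓞 K) → G'}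

/-- the correlation along an ultrafilter -/
noncomputable def cor (U : Ultrafilter ℝ) (π : G →* Matrix.unitaryGroup (Fin n) ℂ)
    (x : HeightOneSpectrum (𝓞 K) → G) (π' : G' →* Matrix.unitaryGroup (Fin n') ℂ)
    (x' : HeightOneSpectrum (𝓞 K) → G') (τ : ℝ) : ℝ :=
  M (nm K) U fun v => (tc π x 0 v * tc π' x' τ v).re

theorem cor_lim {U : Ultrafilter ℝ} (hU : (U : Filter ℝ) ≤ 𝓝[>] 0) (τ : ℝ) :
    Tendsto (sz π x π' x' τ) U (𝓝 (cor U π x π' x' τ)) := by
  have h5 := M_lim (sysF K) hU ((bc_tc (π := π) x 0).mul (bc_tc (π := π') x' τ)).re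
  have h6 := h5.sub ((size_LP π x π' x' τ).2.mono_left hU)
  rw [sub_zero] at h6
  refine h6.congr fun ε => ?_
  unfold sz
  ring

theorem tc_zero (v : HeightOneSpectrum (𝓞 K)) : tc π x 0 v = chi π (x v) := by
  unfold tc
  simp

/-- the data of a nontrivial irreducible representation -/
def NI {n : ℕ} (π : G →* Matrix.unitaryGroup (Fin n) ℂ) : Prop :=
  Continuous π ∧ Schur π ∧ ∃ g, π g ≠ 1

theorem int_var_pos (hc : Continuous π) (hs : Schur π) (hn : 2 ≤ n) {c₀ : ℝ}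
    (hc₀ : ∫ g, ‖chi π g‖ ^ 2 ∂μ = c₀) : 0 < ∫ g, (‖chi π g‖ ^ 2 - c₀) ^ 2 ∂μ := by
  refine int_pos (g₀ := 1) (((cont_chi hc).norm.pow 2).sub continuous_const |>.pow 2)
    (fun g => sq_nonneg _) ?_
  have h1 : c₀ ≤ 1 := by rw [← hc₀]; exact int_sq_le hc hs
  have h2 : (2 : ℝ) ≤ n := by exact_mod_cast hn
  have h3 : ‖chi π 1‖ = n := by rw [chi_one]; simp
  rw [h3]
  have h4 : 0 < (n : ℝ) ^ 2 - c₀ := by nlinarith
  positivity

/-- **No edge case without a positive correlation of characters.** -/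
theorem not_edge (hx : Law x μ) (hx' : Law x' μ') (hc : Continuous π) (hs : Schur π)
    (hc' : Continuous π') (hs' : Schur π') (hn : 2 ≤ n) {U : Ultrafilter ℝ}
    (hU : (U : Filter ℝ) ≤ 𝓝[>] 0)
    (hneg : ∀ (m m' : ℕ) (ρ : G →* Matrix.unitaryGroup (Fin m) ℂ)
      (ρ' : G' →* Matrix.unitaryGroup (Fin m') ℂ), NI ρ → NI ρ' → cor U ρ x ρ' x' 0 ≤ 0)
    (τ : ℝ) : (cor U π x π' x' τ) ^ 2 < 1 := by
  by_contra hcon
  push Not at hcon
  have hN := sysF K
  have hb := bc_tc (π := π) x 0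
  have hb' := bc_tc (π := π') x' τ
  have h1 := M_tc_sq (π := π) hx hc hs 0 hU
  have h2 := M_tc_sq (π := π') hx' hc' hs' τ hU
  have h3 := edge_le hN hU hb hb' h1 h2
  have h5 : |cor U π x π' x' τ| = 1 := by
    have h6 : (cor U π x π' x' τ) ^ 2 = 1 := le_antisymm h3 hcon
    have h7 : |cor U π x π' x' τ| ^ 2 = 1 := by rw [sq_abs]; exact h6
    exact (pow_eq_one_iff_of_nonneg (abs_nonneg _) two_ne_zero).1 h7
  have h6 := edge_eq hN hU hb hb' h1 h2 (r := cor U π x π' x' τ) rfl hcon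
  have h7 := edge_norm hN hU hb hb' h5 h6
  obtain ⟨c₀, hc₀⟩ : ∃ c₀ : ℝ, ∫ g, ‖chi π g‖ ^ 2 ∂μ = c₀ := ⟨_, rfl⟩
  have hc₀' : ∫ g, ‖chi π' g‖ ^ 2 ∂μ' = c₀ := by
    have e1 := M_tc_pow (π := π) hx hc 0 hU 1
    have e2 := M_tc_pow (π := π') hx' hc' τ hU 1
    have e3 := edge_mom hN hU hb hb' h5 h6 1
    simp only [pow_one] at e1 e2 e3
    rw [← hc₀, ← e1, ← e2, e3]
  simp only [norm_tc] at h7
  set F : HeightOneSpectrum (𝓞 K) → ℝ := fun v => ‖chi π (x v)‖ ^ 2 - c₀ with hF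
  set F' : HeightOneSpectrum (𝓞 K) → ℝ := fun v => ‖chi π' (x' v)‖ ^ 2 - c₀ with hF'
  have hFb : Bd F := bd_cont (((cont_chi hc).norm.pow 2).sub continuous_const) x
  have hFb' : Bd F' := bd_cont (((cont_chi hc').norm.pow 2).sub continuous_const) x'
  have hD : (M (nm K) U fun v => |F v - F' v|) = 0 := by
    have e : (fun v => |F v - F' v|) = fun v => |‖chi π (x v)‖ ^ 2 - ‖chi π' (x' v)‖ ^ 2| := by
      funext v
      rw [hF, hF']
      congr 1
      ring
    rw [e]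
    exact h7
  obtain ⟨C, hC⟩ := id hFb
  have hC0 : ∀ v, |F v| ≤ |C| := fun v => (hC v).trans (le_abs_self C)
  have hdb : Bd fun v => F v - F' v := hFb.sub hFb'
  have h8 : (M (nm K) U fun v => |F v * (F v - F' v)|) = 0 := by
    have e0 : (M (nm K) U fun v => |C| * |F v - F' v|) = 0 := by
      rw [M_const_mul hN hU hdb.abs, hD, mul_zero]
    refine M_zero_of_le hN hU (hFb.mul hdb).abs (hdb.abs.const_mul _) (fun v => abs_nonneg _)
      (fun v => ?_) e0
    rw [abs_mul]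
    exact mul_le_mul_of_nonneg_right (hC0 v) (abs_nonneg _)
  have h9 : (M (nm K) U fun v => F v * (F v - F' v)) ≤ 0 := by
    rw [← h8]
    exact M_mono hN hU (hFb.mul hdb) (hFb.mul hdb).abs fun v => le_abs_self _
  have h10 : (M (nm K) U fun v => F v * (F v - F' v)) =
      (M (nm K) U fun v => F v * F v) - M (nm K) U fun v => F v * F' v := by
    rw [← M_sub hN hU (hFb.mul hFb) (hFb.mul hFb')]
    congr 1
    funext v
    ring
  have h11 : 0 < M (nm K) U fun v => F v * F v := by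
    have e := M_law hx hU (f := fun g => (‖chi π g‖ ^ 2 - c₀) ^ 2)
      ((((cont_chi hc).norm.pow 2).sub continuous_const).pow 2)
      (fun g h => by rw [chi_cls])
    have e2 : (fun v => F v * F v) = fun v => (‖chi π (x v)‖ ^ 2 - c₀) ^ 2 := by
      funext v
      rw [hF]
      ring
    rw [e2, e]
    exact int_var_pos hc hs hn hc₀
  have h12 : (M (nm K) U fun v => F v * F' v) ≤ 0 := by
    obtain ⟨s, A, a1, a2, a3⟩ := pos_dec hc hc₀
    obtain ⟨s', B, b1, b2, b3⟩ := pos_dec hc' hc₀'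
    have hbs : ∀ φ ∈ s, ∀ ψ ∈ s', Bd fun v => (φ (x v) * ψ (x' v)).re := by
      intro φ hφ ψ hψ
      obtain ⟨m, ρ, q1, q2, q3, q4⟩ := a1 φ hφ
      obtain ⟨m', ρ', q1', q2', q3', q4'⟩ := b1 ψ hψ
      refine ⟨m * m', fun v => ?_⟩
      rw [← q4, ← q4']
      refine (Complex.abs_re_le_norm _).trans ?_
      rw [norm_mul]
      exact mul_le_mul (norm_chi ρ _) (norm_chi ρ' _) (norm_nonneg _) (Nat.cast_nonneg _)
    have e1 : (fun v => F v * F' v) = fun v => ∑ φ ∈ s, ∑ ψ ∈ s', (A φ * B ψ) *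
        (φ (x v) * ψ (x' v)).re := by
      funext v
      have c1 : ((F v * F' v : ℝ) : ℂ) = ∑ φ ∈ s, ∑ ψ ∈ s', ((A φ * B ψ : ℝ) : ℂ) *
          (φ (x v) * ψ (x' v)) := by
        rw [Complex.ofReal_mul]
        have c2 : ((F v : ℝ) : ℂ) = _ := a3 (x v)
        have c3 : ((F' v : ℝ) : ℂ) = _ := b3 (x' v)
        rw [c2, c3, Finset.sum_mul_sum]
        refine Finset.sum_congr rfl fun φ _ => Finset.sum_congr rfl fun ψ _ => ?_
        push_cast
        ring
      have c4 := congrArg Complex.re c1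
      rw [Complex.ofReal_re] at c4
      rw [c4, Complex.re_sum]
      refine Finset.sum_congr rfl fun φ _ => ?_
      rw [Complex.re_sum]
      refine Finset.sum_congr rfl fun ψ _ => ?_
      rw [Complex.re_ofReal_mul]
    rw [e1, M_sum hN hU s]
    · refine Finset.sum_nonpos fun φ hφ => ?_
      rw [M_sum hN hU s']
      · refine Finset.sum_nonpos fun ψ hψ => ?_
        rw [M_const_mul hN hU (hbs φ hφ ψ hψ)]
        refine mul_nonpos_of_nonneg_of_nonpos (mul_nonneg (a2 φ hφ) (b2 ψ hψ)) ?_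
        obtain ⟨m, ρ, q1, q2, q3, q4⟩ := a1 φ hφ
        obtain ⟨m', ρ', q1', q2', q3', q4'⟩ := b1 ψ hψ
        have e2 := hneg m m' ρ ρ' ⟨q1, q2, q3⟩ ⟨q1', q2', q3'⟩
        unfold cor at e2
        simp only [tc_zero] at e2
        rw [← q4, ← q4']
        exact e2
      · exact fun ψ hψ => (hbs φ hφ ψ hψ).const_mul _
    · intro φ hφ
      exact Bd.sum _ fun ψ hψ => (hbs φ hφ ψ hψ).const_mul _
  linarith

end Pool.Agent.U62.JST
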