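import Pool.Agent.TH553.ST.PW2

set_option autoImplicit false
set_option linter.unusedSectionVars false

/-!
# The square of the absolute value of a character is a positive combination of irreducible characters
-/

namespace Pool.Agent.U62.JST

open Complex Filter Topology ComplexConjugate NumberField IsDedekindDomain MeasureTheory
  Pool.Agent.W540.BE Pool.Agent.TH553.RS Pool.Agent.TH553.ST
open scoped Kronecker Matrix

variable {G : Type} [Group G] [TopologicalSpace G] [IsTopologicalGroup G] [CompactSpace G]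
  [MeasurableSpace G] [BorelSpace G] {μ : Measure G} [IsProbabilityMeasure μ] [μ.IsHaarMeasure]
  {n : ℕ} {π : G →* Matrix.unitaryGroup (Fin n) ℂ}

/-- the mean value of a character is not negative -/
theorem int_chi_nonneg (hc : Continuous π) : ∃ r : ℝ, 0 ≤ r ∧ ∫ g, chi π g ∂μ = (r : ℂ) := by
  set Ψ := mi μ (fun g => (π g : Matrix (Fin n) (Fin n) ℂ)) with hΨ
  have h1 : ∀ h : G, (π h : Matrix (Fin n) (Fin n) ℂ) * Ψ = Ψ := by
    intro h
    rw [hΨ, ← mi_mul (cont_mat hc)]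
    have h2 : (fun g => (π h : Matrix (Fin n) (Fin n) ℂ) * (π g : Matrix (Fin n) (Fin n) ℂ)) =
        fun g => (π (h * g) : Matrix (Fin n) (Fin n) ℂ) := funext fun g => (pi_mul h g).symm
    rw [h2]
    exact mi_left (fun g => (π g : Matrix (Fin n) (Fin n) ℂ)) h
  have h1' : ∀ h : G, Ψᴴ * (π h : Matrix (Fin n) (Fin n) ℂ) = Ψᴴ := by
    intro h
    have h2 := h1 h
    have h3 : (π h : Matrix (Fin n) (Fin n) ℂ)ᴴ * Ψ = Ψ := by
      conv_lhs => rw [← h2]
      rw [← Matrix.mul_assoc, pi_star, Matrix.one_mul]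
    have h4 := congrArg Matrix.conjTranspose h3
    rwa [Matrix.conjTranspose_mul, Matrix.conjTranspose_conjTranspose] at h4
  have h2 : Ψᴴ * Ψ = Ψᴴ := by
    conv_lhs => rw [hΨ]
    rw [← hΨ, ← mi_mul (cont_mat hc)]
    simp only [h1']
    ext k l
    rw [mi_apply]
    simp
  have h3 : Ψᴴ * Ψ = Ψ := by
    have h4 := congrArg Matrix.conjTranspose h2
    rw [Matrix.conjTranspose_mul, Matrix.conjTranspose_conjTranspose] at h4
    exact h4
  have h4 := mi_trace (μ := μ) (cont_mat hc)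
  rw [← hΨ] at h4
  refine ⟨∑ i, ∑ j, ‖Ψ j i‖ ^ 2, Finset.sum_nonneg fun i _ => Finset.sum_nonneg fun j _ =>
    sq_nonneg _, ?_⟩
  have h5 : (∫ g, chi π g ∂μ) = Ψ.trace := h4.symm
  have h6 : ∀ i j, star (Ψ j i) * Ψ j i = ((‖Ψ j i‖ ^ 2 : ℝ) : ℂ) := by
    intro i j
    rw [mul_comm]
    have := Complex.mul_conj (Ψ j i)
    rw [Complex.normSq_eq_norm_sq] at this
    exact this
  have h7 : (Ψᴴ * Ψ).trace = ((∑ i, ∑ j, ‖Ψ j i‖ ^ 2 : ℝ) : ℂ) := by
    unfold Matrix.trace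
    simp only [Matrix.diag_apply, Matrix.mul_apply, Matrix.conjTranspose_apply, h6]
    push_cast
    rfl
  rw [h5]
  rw [h3] at h7
  exact h7

/-- multiplicities are not negative -/
theorem int_ad_nonneg (hc : Continuous π) {m : ℕ} {σ : G →* Matrix.unitaryGroup (Fin m) ℂ}
    (hσ : Continuous σ) :
    ∃ r : ℝ, 0 ≤ r ∧ ∫ g, ((‖chi π g‖ ^ 2 : ℝ) : ℂ) * conj (chi σ g) ∂μ = (r : ℂ) := by
  set e := Fintype.equivFin ((Fin n × Fin n) × Fin m) with he
  set Q := ri e (tp (tp π (cj π)) (cj σ)) with hQ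
  have hcc : ∀ {k : ℕ} {ρ : G →* Matrix.unitaryGroup (Fin k) ℂ}, Continuous ρ →
      Continuous (cj ρ) := by
    intro k ρ hρ
    refine Continuous.subtype_mk ?_ _
    exact (continuous_subtype_val.comp hρ).matrix_map Complex.continuous_conj
  have htp : ∀ {ι ι' : Type} [Fintype ι] [DecidableEq ι] [Fintype ι'] [DecidableEq ι']
      {a : G →* Matrix.unitaryGroup ι ℂ} {b : G →* Matrix.unitaryGroup ι' ℂ},
      Continuous a → Continuous b → Continuous (tp a b) := by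
    intro ι ι' _ _ _ _ a b ha hb
    refine Continuous.subtype_mk ?_ _
    refine continuous_matrix fun i j => ?_
    exact ((continuous_subtype_val.comp ha).matrix_elem i.1 j.1).mul
      ((continuous_subtype_val.comp hb).matrix_elem i.2 j.2)
  have hQc : Continuous Q := cont_ri e (htp (htp hc (hcc hc)) (hcc hσ))
  obtain ⟨r, h1, h2⟩ := int_chi_nonneg (μ := μ) hQc
  refine ⟨r, h1, ?_⟩
  rw [← h2]
  congr 1
  funext g
  rw [hQ, chi_ri]
  change _ = (((π g : Matrix (Fin n) (Fin n) ℂ) ⊗ₖ (cj π g : Matrix (Fin n) (Fin n) ℂ)) ⊗ₖ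
    (cj σ g : Matrix (Fin m) (Fin m) ℂ)).trace
  rw [Matrix.trace_kronecker, Matrix.trace_kronecker]
  have e1 : (cj π g : Matrix (Fin n) (Fin n) ℂ).trace = conj (chi π g) := chi_cj π g
  have e2 : (cj σ g : Matrix (Fin m) (Fin m) ℂ).trace = conj (chi σ g) := chi_cj σ g
  rw [e1, e2]
  have e3 : (π g : Matrix (Fin n) (Fin n) ℂ).trace = chi π g := rfl
  rw [e3, Complex.mul_conj, Complex.normSq_eq_norm_sq]

theorem coef_chi (hc : Continuous π) : Coef (chi π) :=
  ⟨Fin n, inferInstance, inferInstance, π, 1, hc, fun g => by rw [Matrix.one_mul]; rfl⟩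

theorem chi_trivial (h : ∀ g, π g = 1) (g : G) : chi π g = n := chi_triv h g

/-- **The decomposition of `|χ|² - ∫ |χ|²`.** -/
theorem pos_dec (hc : Continuous π) {c₀ : ℝ} (hc₀ : ∫ g, ‖chi π g‖ ^ 2 ∂μ = c₀) :
    ∃ (s : Finset (G → ℂ)) (A : (G → ℂ) → ℝ),
      (∀ φ ∈ s, ∃ (m : ℕ) (ρ : G →* Matrix.unitaryGroup (Fin m) ℂ), Continuous ρ ∧ Schur ρ ∧
        (∃ g, ρ g ≠ 1) ∧ chi ρ = φ) ∧ (∀ φ ∈ s, 0 ≤ A φ) ∧
      ∀ g, ((‖chi π g‖ ^ 2 - c₀ : ℝ) : ℂ) = ∑ φ ∈ s, (A φ : ℂ) * φ g := by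
  classical
  set F : G → ℂ := fun g => ((‖chi π g‖ ^ 2 - c₀ : ℝ) : ℂ) with hF
  have hcoef : Coef F := by
    have h1 := ((coef_chi hc).mul (coef_chi hc).conj).add (Coef.const (G := G) (-(c₀ : ℂ)))
    have h2 : F = fun g => chi π g * conj (chi π g) + -(c₀ : ℂ) := by
      funext g
      rw [hF, Complex.mul_conj, Complex.normSq_eq_norm_sq]
      push_cast
      ring
    rw [h2]
    exact h1
  have hFc : Continuous F := coef_cont hcoef
  have hcls : ∀ g k, F (k * g * k⁻¹) = F g := fun g k => by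
    rw [hF]
    simp only
    rw [chi_cls]
  have hdec : Dec F := by
    have h1 := dec_cav (μ := μ) hcoef
    have h2 : cav μ F = F := funext fun g => cav_class hcls g
    rwa [h2] at h1
  obtain ⟨J, _, m, ρ, a, h1, h2⟩ := hdec
  set s₀ : Finset (G → ℂ) := Finset.univ.image fun j => chi (ρ j) with hs₀
  set a' : (G → ℂ) → ℂ := fun φ => ∑ j ∈ Finset.univ.filter fun j => chi (ρ j) = φ, a j with ha'
  have h3 : ∀ g, F g = ∑ φ ∈ s₀, a' φ * φ g := by
    intro g
    rw [h2]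
    rw [← Finset.sum_fiberwise_of_maps_to (s := Finset.univ) (t := s₀) (g := fun j => chi (ρ j))
      (fun j _ => Finset.mem_image_of_mem _ (Finset.mem_univ j))]
    refine Finset.sum_congr rfl fun φ _ => ?_
    rw [ha']
    simp only
    rw [Finset.sum_mul]
    refine Finset.sum_congr rfl fun j hj => ?_
    rw [(Finset.mem_filter.1 hj).2]
  have hcont : ∀ φ ∈ s₀, Continuous φ := by
    intro φ hφ
    obtain ⟨j, _, hj⟩ := Finset.mem_image.1 hφ
    rw [← hj]
    exact cont_chi (h1 j).1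
  -- the coefficients
  have h4 : ∀ j, m j ≠ 0 → a' (chi (ρ j)) = ∫ g, F g * conj (chi (ρ j) g) ∂μ := by
    intro j hmj
    set φ := chi (ρ j) with hφ
    have hφs : φ ∈ s₀ := Finset.mem_image_of_mem _ (Finset.mem_univ j)
    have h5 : ∀ g, F g * conj (φ g) = ∑ ψ ∈ s₀, a' ψ * (ψ g * conj (φ g)) := by
      intro g
      rw [h3, Finset.sum_mul]
      exact Finset.sum_congr rfl fun ψ _ => by ring
    simp only [h5]
    have hii : ∀ ψ ∈ s₀, Integrable (fun g => a' ψ * (ψ g * conj (φ g))) μ := fun ψ hψ =>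
      intg (continuous_const.mul ((hcont ψ hψ).mul (Complex.continuous_conj.comp (hcont φ hφs))))
    rw [integral_finsetSum _ hii]
    rw [Finset.sum_eq_single φ]
    · rw [integral_const_mul]
      have h6 : ∫ g, φ g * conj (φ g) ∂μ = 1 := by
        have h7 : ∀ g, φ g * conj (φ g) = ((‖chi (ρ j) g‖ ^ 2 : ℝ) : ℂ) := fun g => by
          rw [Complex.mul_conj, Complex.normSq_eq_norm_sq]
        simp only [h7]
        have h8 : ∫ g, ((‖chi (ρ j) g‖ ^ 2 : ℝ) : ℂ) ∂μ =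
            ((∫ g, ‖chi (ρ j) g‖ ^ 2 ∂μ : ℝ) : ℂ) := integral_ofReal
        rw [h8, int_sq (h1 j).1 (h1 j).2 hmj, Complex.ofReal_one]
      rw [h6, mul_one]
    · intro ψ hψ hne
      obtain ⟨i, _, hi⟩ := Finset.mem_image.1 hψ
      rw [integral_const_mul]
      have h6 : ∫ g, ψ g * conj (φ g) ∂μ = 0 := by
        rw [← hi, hφ]
        exact int_mul_conj (h1 i).1 (h1 i).2 (h1 j).1 (h1 j).2 (by rw [hi]; exact hne)
      rw [h6, mul_zero]
    · intro h
      exact absurd hφs h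
  have hint : ∀ f : G → ℂ, Continuous f → Integrable f μ := fun f hf => intg hf
  have h5 : ∀ j, m j ≠ 0 → (∃ g, ρ j g ≠ 1) → ∃ r : ℝ, 0 ≤ r ∧ a' (chi (ρ j)) = (r : ℂ) := by
    intro j hmj hnt
    obtain ⟨r, h6, h7⟩ := int_ad_nonneg (μ := μ) hc (h1 j).1
    refine ⟨r, h6, ?_⟩
    rw [h4 j hmj, ← h7]
    have h8 : ∀ g, F g * conj (chi (ρ j) g) = ((‖chi π g‖ ^ 2 : ℝ) : ℂ) * conj (chi (ρ j) g) -
        (c₀ : ℂ) * conj (chi (ρ j) g) := by
      intro g
      rw [hF]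
      push_cast
      ring
    simp only [h8]
    have hcj : Continuous fun g => conj (chi (ρ j) g) :=
      Complex.continuous_conj.comp (cont_chi (h1 j).1)
    have hi1 : Integrable (fun g => ((‖chi π g‖ ^ 2 : ℝ) : ℂ) * conj (chi (ρ j) g)) μ :=
      intg ((Complex.continuous_ofReal.comp ((cont_chi hc).norm.pow 2)).mul hcj)
    have hi2 : Integrable (fun g => (c₀ : ℂ) * conj (chi (ρ j) g)) μ :=
      intg (continuous_const.mul hcj)
    rw [integral_sub hi1 hi2, integral_const_mul]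
    have h9 : ∫ g, conj (chi (ρ j) g) ∂μ = 0 := by
      rw [integral_conj, int_chi (h1 j).1 (h1 j).2 hnt, map_zero]
    rw [h9, mul_zero, sub_zero]
  have h6 : ∀ j, m j ≠ 0 → (¬ ∃ g, ρ j g ≠ 1) → a' (chi (ρ j)) = 0 := by
    intro j hmj hnt
    push Not at hnt
    rw [h4 j hmj]
    simp only [chi_trivial hnt]
    rw [integral_mul_const]
    have h7 : ∫ g, F g ∂μ = 0 := by
      have h8 : ∫ g, F g ∂μ = ((∫ g, (‖chi π g‖ ^ 2 - c₀) ∂μ : ℝ) : ℂ) := integral_ofReal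
      have hi1 : Integrable (fun g => ‖chi π g‖ ^ 2) μ := intg ((cont_chi hc).norm.pow 2)
      rw [h8, integral_sub hi1 (integrable_const _), hc₀]
      simp
    rw [h7, zero_mul]
  have h7 : ∀ j, m j = 0 → chi (ρ j) = 0 := by
    intro j hmj
    funext g
    have : ‖chi (ρ j) g‖ ≤ (m j : ℝ) := norm_chi _ _
    have h0 : ((m j : ℕ) : ℝ) = 0 := by exact_mod_cast hmj
    exact norm_le_zero_iff.1 (this.trans h0.le)
  refine ⟨s₀.filter fun φ => φ ≠ 0 ∧ a' φ ≠ 0, fun φ => (a' φ).re, ?_, ?_, ?_⟩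
  · intro φ hφ
    obtain ⟨hφ1, hφ2, hφ3⟩ := Finset.mem_filter.1 hφ
    obtain ⟨j, _, hj⟩ := Finset.mem_image.1 hφ1
    refine ⟨m j, ρ j, (h1 j).1, (h1 j).2, ?_, hj⟩
    by_contra hnt
    have hmj : m j ≠ 0 := fun h => hφ2 (by rw [← hj, h7 j h])
    exact hφ3 (by rw [← hj]; exact h6 j hmj hnt)
  · intro φ hφ
    obtain ⟨hφ1, hφ2, hφ3⟩ := Finset.mem_filter.1 hφ
    obtain ⟨j, _, hj⟩ := Finset.mem_image.1 hφ1
    have hmj : m j ≠ 0 := fun h => hφ2 (by rw [← hj, h7 j h])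
    by_cases hnt : ∃ g, ρ j g ≠ 1
    · obtain ⟨r, hr, hr'⟩ := h5 j hmj hnt
      have : a' φ = (r : ℂ) := by rw [← hj]; exact hr'
      simp only
      rw [this, Complex.ofReal_re]
      exact hr
    · exact absurd (by rw [← hj]; exact h6 j hmj hnt) hφ3
  · intro g
    have e0 : ((‖chi π g‖ ^ 2 - c₀ : ℝ) : ℂ) = F g := rfl
    rw [e0, h3 g, Finset.sum_filter]
    refine Finset.sum_congr rfl fun φ hφ1 => ?_
    obtain ⟨j, _, hj⟩ := Finset.mem_image.1 hφ1
    by_cases hz : φ ≠ 0 ∧ a' φ ≠ 0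
    · rw [if_pos hz]
      have hmj : m j ≠ 0 := fun h => hz.1 (by rw [← hj, h7 j h])
      by_cases hnt : ∃ g, ρ j g ≠ 1
      · obtain ⟨r, hr, hr'⟩ := h5 j hmj hnt
        have : a' φ = (r : ℂ) := by rw [← hj]; exact hr'
        simp only
        rw [this, Complex.ofReal_re]
      · exact absurd (by rw [← hj]; exact h6 j hmj hnt) hz.2
    · rw [if_neg hz]
      push Not at hz
      by_cases hz1 : φ = 0
      · rw [hz1]; simp
      · rw [hz hz1, zero_mul]

end Pool.Agent.U62.JST
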